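import Pool.Agent.Run7.h699.BC.One

/-!
# Countable choice for uniformly `Σ⁰₂` sequences of sets of reals is a theorem of ZF

The definitions used in the statement are in `Pool.Agent.Run7.h699.BC.Defs`,
`Pool.Agent.H158_PC.Defs` and `Pool.Agent.W868.Defs`.

Proof (in ZF). Let `A` be a sequence of nonempty sets of reals such that the set of all `k⌢x` with
`x ∈ A k` is the union of a sequence of closed sets `B j`. For each `k` let `j` be the least number
such that `B j` contains some `z` with `z 0 = k`. The closed set of these `z` has a lexicographically
least element `k⌢x`, and `x` is the element chosen from `A k`. No codes of the sets have to be chosen,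
since closed sets have canonical codes.
-/

set_option autoImplicit false

namespace Pool.Agent.Results.MP_702eac_lc.UniformSigmaTwo

open Pool.Agent.W868 Run7.h699.BC

/-- In every transitive model of ZF, countable choice holds for the sequences of nonempty sets of
reals that are uniformly in the (boldface, not coded) class `Σ⁰₂`. -/
theorem result (M : Set ZFSet.{0}) (hM : IsZF M) : ACu M 2 := acu_two hM

end Pool.Agent.Results.MP_702eac_lc.UniformSigmaTwo
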